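import Pool.Agent.E98.Fin

/-!
# The dimension of the stacked antichain poset, up to an additive constant, for all parameters

Levels are numbered `0, ..., t - 1`.
-/

namespace Pool.Agent.Results.MP_e98534_co.AllParameters

open Pool.E98

/-- For all `t ≥ 2` and all positive `a_0, ..., a_{t-1}`, the dimension of
`X(a_0, ..., a_{t-1})` lies between `D` and `D + 925`, where `D` is the least `k` for which a
chain of `t` pairs of linear inequalities in integers `u_0, ..., u_t` is solvable, and solvability
is decided by a one-pass recursion. -/
theorem result (t : ℕ) (a : ℕ → ℕ) (ht : 2 ≤ t) (ha : ∀ j < t, 0 < a j) :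
    Realizable t a (dimX t a) ∧ D t a ≤ dimX t a ∧ dimX t a ≤ D t a + 925 ∧
      Feasible t a (D t a) ∧
      ∀ k, Feasible t a k ↔ ∀ j ≤ t, greedy t a k j ≤ k :=
  main ht ha

end Pool.Agent.Results.MP_e98534_co.AllParameters
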